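import Pool.Agent.Helper75.CR.St

/-!
# Project CR, module L1
-/

set_option autoImplicit false

namespace Pool.Agent.Helper15.CR

open Pool.Agent.Helper75.CR Helper1.IM

theorem hL1 : StL1 := by
  intro B S ρ hC u v w hu hv hw ⟨a, b, h1⟩ ⟨c, d, h2⟩
  obtain ⟨⟨g, hg⟩, -⟩ := hC u hu
  have e1 : ρ.r (u ++ u ++ g) ((c ++ w ++ d) ++ u ++ g) := by
    have := ρ.mul' [] (u ++ g) h2
    simpa using this
  have e2 : ρ.r ((c ++ w ++ d) ++ u ++ g) ((c ++ w ++ d) ++ (a ++ v ++ b) ++ g) :=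
    ρ.mul' _ _ h1
  obtain ⟨⟨k, hk⟩, -⟩ := hC (w ++ d ++ a ++ v) (by simp [hw])
  have e3 : ρ.r (c ++ (w ++ d ++ a ++ v) ++ (b ++ g))
      (c ++ ((w ++ d ++ a ++ v) ++ (w ++ d ++ a ++ v) ++ k) ++ (b ++ g)) := ρ.mul' _ _ hk
  have e4 := ρ.trans' hg (ρ.trans' e1 e2)
  have e5 : (c ++ w ++ d) ++ (a ++ v ++ b) ++ g = c ++ (w ++ d ++ a ++ v) ++ (b ++ g) := by
    simp
  rw [e5] at e4
  refine ⟨c ++ w ++ d ++ a, d ++ a ++ v ++ k ++ b ++ g, ?_⟩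
  have e6 : (c ++ w ++ d ++ a) ++ (v ++ w) ++ (d ++ a ++ v ++ k ++ b ++ g) =
      c ++ ((w ++ d ++ a ++ v) ++ (w ++ d ++ a ++ v) ++ k) ++ (b ++ g) := by
    simp
  rw [e6]
  exact ρ.trans' e4 e3

end Pool.Agent.Helper15.CR
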